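import Pool.Agent.helper17.EXC.Spec

set_option autoImplicit false

open Finset

namespace Pool.Agent.EXC

section
variable {n : ℕ} {C : Matrix (Fin n) (Fin n) ℤ} [IsC C] {F : Type} [Field F]

theorem EXF_xtrE (hJAC : JAC_stmt) (hSTR : STR_stmt) (hINV : INV_stmt) {α : Fin n → ℤ} (hα : ip C α α = 2) :
    Xtr C (E C α : Lm C F) where
  jac := hJAC n C F α hα
  str := hSTR n C F α hα
  inv := (hINV n C F).1 α hα
  sq := (hINV n C F).2.1 α hα
  aa := ((hINV n C F).2.2.2.2 α hα).1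
  ff := ((hINV n C F).2.2.2.2 α hα).2

theorem EXF_ext {a : Lm C F} {t : F} {g h : Lm C F ≃ₗ[F] Lm C F} (hg : IsX C a t g) (hh : IsX C a t h) : g = h :=
  LinearEquiv.ext fun v => (hg v).trans (hh v).symm

theorem EXF_one : Au C (1 : Lm C F ≃ₗ[F] Lm C F) := ⟨fun _ _ => rfl, fun _ _ => rfl⟩

theorem EXF_mul {g h : Lm C F ≃ₗ[F] Lm C F} (hg : Au C g) (hh : Au C h) : Au C (g * h) := by
  constructor
  · intro v w
    show g (h (br C v w)) = br C (g (h v)) (g (h w))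
    rw [hh.br, hg.br]
  · intro v w
    show fm C (g (h v)) (g (h w)) = fm C v w
    rw [hg.fm, hh.fm]

theorem EXF_app_inv (g : Lm C F ≃ₗ[F] Lm C F) (v : Lm C F) : g (g⁻¹ v) = v := g.apply_symm_apply v

theorem EXF_inv_app (g : Lm C F ≃ₗ[F] Lm C F) (v : Lm C F) : g⁻¹ (g v) = v := g.symm_apply_apply v

theorem EXF_inv {g : Lm C F ≃ₗ[F] Lm C F} (hg : Au C g) : Au C g⁻¹ := by
  constructor
  · intro v w
    apply g.injective
    rw [hg.br, EXF_app_inv, EXF_app_inv, EXF_app_inv]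
  · intro v w
    rw [← hg.fm, EXF_app_inv, EXF_app_inv]

end

theorem EXF (hJAC : JAC_stmt) (hSTR : STR_stmt) (hINV : INV_stmt) (hXAU : XAU_stmt) : EXF_stmt := by
  intro n C _ F _ hβ
  have hXE : ∀ α, ip C α α = 2 → Xtr C (E C α : Lm C F) := fun α hα => EXF_xtrE hJAC hSTR hINV hα
  have hAu : ∀ g ∈ GE C F, Au C g := by
    intro g hg
    refine Subgroup.closure_induction (p := fun g _ => Au C g) ?_ EXF_one ?_ ?_ hg
    · rintro g ⟨α, hα, t, ht⟩
      obtain ⟨g', hg', hA⟩ := (hXAU n C F (E C α) (hXE α hα)).2.1 t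
      rw [EXF_ext ht hg']
      exact hA
    · intro x y _ _ hx hy
      exact EXF_mul hx hy
    · intro x _ hx
      exact EXF_inv hx
  -- extremal vectors
  have hXtr : ∀ a : Lm C F, Ex C a → Xtr C a := by
    rintro a ⟨g, hg, α, hα, c, hc, rfl⟩
    have h1 := ((hXAU n C F (E C α) (hXE α hα)).2.2.1 g (hAu g hg)).1
    exact ((hXAU n C F (g (E C α)) h1).2.2.2 c).1
  have hconj : ∀ a : Lm C F, Xtr C a → ∀ g ∈ GE C F, ∀ t h, IsX C a t h → IsX C (g a) t (g * h * g⁻¹) := by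
    intro a ha g hg t h hh v
    show g (h (g⁻¹ v)) = xe C (g a) t v
    rw [hh (g⁻¹ v), ((hXAU n C F a ha).2.2.1 g (hAu g hg)).2 t (g⁻¹ v), EXF_app_inv]
  have hsc : ∀ (a : Lm C F), Xtr C a → ∀ (c t : F) (h : Lm C F ≃ₗ[F] Lm C F), IsX C (c • a) t h ↔ IsX C a (c * t) h := by
    intro a ha c t h
    constructor
    · intro hh v
      rw [hh v, ((hXAU n C F a ha).2.2.2 c).2 t v]
    · intro hh v
      rw [hh v, ((hXAU n C F a ha).2.2.2 c).2 t v]
  have hex : ∀ a : Lm C F, Ex C a → ∀ t, ∃ h ∈ GE C F, IsX C a t h := by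
    rintro a ⟨g, hg, α, hα, c, hc, rfl⟩ t
    obtain ⟨x, hx, _⟩ := (hXAU n C F (E C α) (hXE α hα)).2.1 (c * t)
    have hxG : x ∈ GE C F := Subgroup.subset_closure ⟨α, hα, c * t, hx⟩
    refine ⟨g * x * g⁻¹, mul_mem (mul_mem hg hxG) (inv_mem hg), ?_⟩
    have h1 := ((hXAU n C F (E C α) (hXE α hα)).2.2.1 g (hAu g hg)).1
    rw [hsc _ h1]
    exact hconj _ (hXE α hα) g hg _ _ hx
  have hinjE : ∀ α, ip C α α = 2 → ∀ s t : F, (∀ v, xe C (E C α) s v = xe C (E C α) t v) → s = t := by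
    intro α hα s t h
    obtain ⟨β, hβ2, hαβ⟩ := hβ α hα
    have h1 := h (E C β)
    have hne : β ≠ -α := by
      rintro rfl
      rw [ip_neg_right, hα] at hαβ
      norm_num at hαβ
    have hsum : ip C (α + β) (α + β) = 2 := (add_root_iff hα hβ2).2 hαβ
    have hbr : br C (E C α) (E C β) = ((sg C α β : F) • E C (α + β) : Lm C F) := by
      rw [br_E_E C hα hβ2, if_neg hne, sub_zero]
    have hfm : fm C (E C α) (E C β : Lm C F) = 0 := by
      rw [fm_E_E C hα hβ2, if_neg hne]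
    unfold xe at h1
    rw [hbr, hfm, mul_zero, mul_zero, zero_smul, add_zero, add_zero, add_right_inj, smul_smul, smul_smul] at h1
    have h2 := congrArg (fun x : Lm C F => cf x (α + β)) h1
    simp only [cf_smul] at h2
    rw [cf_E C hsum, if_pos rfl, mul_one, mul_one] at h2
    exact mul_right_cancel₀ (sg_ne_zero C α β) h2
  have hinj : ∀ a : Lm C F, Ex C a → ∀ s t h, IsX C a s h → IsX C a t h → s = t := by
    rintro a ⟨g, hg, α, hα, c, hc, rfl⟩ s t h hs ht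
    have h1 := ((hXAU n C F (E C α) (hXE α hα)).2.2.1 g (hAu g hg))
    rw [hsc _ h1.1] at hs ht
    have h2 : c * s = c * t := by
      apply hinjE α hα
      intro v
      apply g.injective
      rw [h1.2, h1.2, ← hs, ← ht]
    exact mul_left_cancel₀ hc h2
  refine ⟨hAu, fun α hα => ⟨1, one_mem _, α, hα, 1, one_ne_zero, (one_smul F _).symm⟩, ?_, ?_⟩
  · intro a ha
    refine ⟨hXtr a ha, ?_, ?_, ?_, hex a ha, ?_, hinj a ha, hconj a (hXtr a ha), ?_⟩
    · obtain ⟨g, hg, α, hα, c, hc, rfl⟩ := ha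
      apply smul_ne_zero hc
      intro h
      exact E_ne_zero (F := F) C hα (g.map_eq_zero_iff.1 h)
    · intro g' hg'
      obtain ⟨g, hg, α, hα, c, hc, rfl⟩ := ha
      exact ⟨g' * g, mul_mem hg' hg, α, hα, c, hc, by rw [map_smul]; rfl⟩
    · intro c' hc'
      obtain ⟨g, hg, α, hα, c, hc, rfl⟩ := ha
      exact ⟨g, hg, α, hα, c' * c, mul_ne_zero hc' hc, by rw [smul_smul]⟩
    · rintro h ⟨t, ht⟩
      obtain ⟨h', hh', hX⟩ := hex a ha t
      rw [EXF_ext ht hX]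
      exact hh'
    · intro s t g h hs ht v
      show g (h v) = xe C a (s + t) v
      rw [ht v, hs (xe C a t v), (hXAU n C F a (hXtr a ha)).1]
  · intro A
    have key : ∀ (g : EG C F) (α : Fin n → ℤ), ip C α α = 2 → ∀ (t : F) (h : EG C F),
        IsX C (E C α) t ((g⁻¹ * h * g : EG C F) : Lm C F ≃ₗ[F] Lm C F) ↔
        IsX C ((g : Lm C F ≃ₗ[F] Lm C F) (E C α)) t (h : Lm C F ≃ₗ[F] Lm C F) := by
      intro g α hα t h
      constructor
      · intro hh
        have h1 := hconj _ (hXE α hα) (g : Lm C F ≃ₗ[F] Lm C F) g.2 t _ hh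
        have e : (g : Lm C F ≃ₗ[F] Lm C F) * ((g⁻¹ * h * g : EG C F) : Lm C F ≃ₗ[F] Lm C F) *
            (g : Lm C F ≃ₗ[F] Lm C F)⁻¹ = (h : Lm C F ≃ₗ[F] Lm C F) := by
          push_cast
          group
        rw [e] at h1
        exact h1
      · intro hh
        have hX := ((hXAU n C F (E C α) (hXE α hα)).2.2.1 (g : Lm C F ≃ₗ[F] Lm C F) (hAu _ g.2)).1
        have h1 := hconj _ hX (g : Lm C F ≃ₗ[F] Lm C F)⁻¹ (inv_mem g.2) t _ hh
        rw [EXF_inv_app] at h1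
        have e : (g : Lm C F ≃ₗ[F] Lm C F)⁻¹ * (h : Lm C F ≃ₗ[F] Lm C F) * ((g : Lm C F ≃ₗ[F] Lm C F)⁻¹)⁻¹ =
            ((g⁻¹ * h * g : EG C F) : Lm C F ≃ₗ[F] Lm C F) := by
          push_cast
          group
        rw [e] at h1
        exact h1
    constructor
    · rintro ⟨g, α, hα, hA⟩
      refine ⟨(g : Lm C F ≃ₗ[F] Lm C F) (E C α), ⟨g, g.2, α, hα, 1, one_ne_zero, (one_smul F _).symm⟩, fun h => ?_⟩
      rw [hA h]
      exact exists_congr fun t => key g α hα t h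
    · rintro ⟨a, ⟨g, hg, α, hα, c, hc, rfl⟩, hA⟩
      refine ⟨⟨g, hg⟩, α, hα, fun h => ?_⟩
      have hX := ((hXAU n C F (E C α) (hXE α hα)).2.2.1 g (hAu _ hg)).1
      rw [hA h]
      constructor
      · rintro ⟨t, ht⟩
        refine ⟨c * t, ?_⟩
        rw [key ⟨g, hg⟩ α hα]
        exact (hsc _ hX c t _).1 ht
      · rintro ⟨t, ht⟩
        rw [key ⟨g, hg⟩ α hα] at ht
        refine ⟨c⁻¹ * t, (hsc _ hX c _ _).2 ?_⟩
        rw [mul_inv_cancel_left₀ hc]
        exact ht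

end Pool.Agent.EXC
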