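import Pool.Agent.helper17.EXC.SpecRA

set_option autoImplicit false

open Finset

namespace Pool.Agent.EXC

theorem GMN_bd {n : ℕ} (C : Matrix (Fin n) (Fin n) ℤ) [IsC C] :
    ∃ B : ℤ, ∀ α : Fin n → ℤ, ip C α α = 2 → ∑ i, α i ≤ B := by
  obtain ⟨B, hB⟩ := (Set.finite_range (fun α : Rt C => ∑ i, α.1 i)).bddAbove
  exact ⟨B, fun α hα => hB ⟨⟨α, hα⟩, rfl⟩⟩

theorem GMN_pos_sr {n : ℕ} (i : Fin n) : Pos (sr i) := by
  intro j
  unfold sr
  by_cases h : j = i
  · subst h; simp
  · simp [h]

theorem GMN (hEXF : EXF_stmt) (hDMN : DMN_stmt) (hDIC : DIC_stmt) (hNBR : NBR_stmt) : GMN_stmt := by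
  intro n C _ F _ j0 θ δ hE g hg hpos hθ
  obtain ⟨hPθ, -, -, hdom⟩ := hDMN n C j0 θ δ hE
  have hAu : Au C g := (hEXF n C F (hNBR n C j0 θ δ hE).1).1 g hg
  have hsr : ∀ i, g (E C (sr i)) = E C (sr i) := fun i => hpos _ (ip_sr_self C i) (GMN_pos_sr i)
  obtain ⟨B, hB⟩ := GMN_bd C
  have hneg : ∀ k : ℕ, ∀ γ : Fin n → ℤ, ip C γ γ = 2 → Pos γ → B - ∑ i, γ i ≤ k →
      g (E C (-γ)) = E C (-γ) := by
    intro k
    induction k with
    | zero =>
      intro γ hγ hp hk
      by_cases hγθ : γ = θ
      · rw [hγθ]; exact hθ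
      · obtain ⟨i, hi | hi⟩ := hdom γ hγ hγθ
        · exfalso
          have h2 : ip C (γ + sr i) (γ + sr i) = 2 := (add_root_iff hγ (ip_sr_self C i)).2 hi
          have h3 := hB _ h2
          have h4 : ∑ j, (γ + sr i) j = ∑ j, γ j + 1 := by
            simp [Finset.sum_add_distrib, sr]
          rw [h4] at h3
          push_cast at hk
          omega
        · exfalso
          have h5 := hp i
          rw [hi] at h5
          simp [sr] at h5
    | succ k ih =>
      intro γ hγ hp hk
      by_cases hγθ : γ = θ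
      · rw [hγθ]; exact hθ
      · obtain ⟨i, hi | hi⟩ := hdom γ hγ hγθ
        · have h2 : ip C (γ + sr i) (γ + sr i) = 2 := (add_root_iff hγ (ip_sr_self C i)).2 hi
          have h4 : ∑ j, (γ + sr i) j = ∑ j, γ j + 1 := by
            simp [Finset.sum_add_distrib, sr]
          have hp' : Pos (γ + sr i) := fun j => add_nonneg (hp j) (GMN_pos_sr i j)
          have h6 := ih (γ + sr i) h2 hp' (by rw [h4]; push_cast at hk; omega)
          have h7 : br C (E C (sr i)) (E C (-(γ + sr i))) =
              ((sg C (sr i) (-(γ + sr i)) : F) • E C (-γ) : Lm C F) := by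
            have hne : -(γ + sr i) ≠ -sr i := by
              intro h
              have h8 : γ = 0 := by
                have := neg_injective h
                simpa using this
              rw [h8] at hγ
              simp at hγ
            rw [br_E_E C (ip_sr_self C i) (neg_root C h2), if_neg hne, sub_zero]
            congr 2
            abel
          have h9 := hAu.br (E C (sr i)) (E C (-(γ + sr i)))
          rw [hsr i, h6, h7, map_smul] at h9
          exact smul_right_injective _ (sg_ne_zero (F := F) C _ _) h9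
        · exfalso
          have h5 := hp i
          rw [hi] at h5
          simp [sr] at h5
  have hnegall : ∀ γ : Fin n → ℤ, ip C γ γ = 2 → Pos γ → g (E C (-γ)) = E C (-γ) := by
    intro γ hγ hp
    refine hneg (B - ∑ i, γ i).toNat γ hγ hp ?_
    exact Int.self_le_toNat _
  have hht : ∀ i, g (ht C (sr i)) = ht C (sr i) := by
    intro i
    have h1 : br C (E C (sr i)) (E C (-sr i)) = -(ht C (sr i) : Lm C F) := by
      rw [br_E_E C (ip_sr_self C i) (neg_root C (ip_sr_self C i)), if_pos rfl, add_neg_cancel,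
        E_eq_zero C (by simp), smul_zero, zero_sub]
    have h2 := hAu.br (E C (sr i)) (E C (-sr i))
    rw [hsr i, hnegall _ (ip_sr_self C i) (GMN_pos_sr i), h1, map_neg, neg_inj] at h2
    exact h2
  have hH : ∀ h : Fin n → F, g (h, 0) = ((h, 0) : Lm C F) := by
    intro h
    have e : ((h, 0) : Lm C F) = ∑ i, h i • ht C (sr i) := by
      refine Prod.ext ?_ ?_
      · rw [Prod.fst_sum]
        funext j
        simp [sr, Pi.single_apply]
      · rw [Prod.snd_sum]
        simp
    rw [e, map_sum]
    exact Finset.sum_congr rfl fun i _ => by rw [map_smul, hht]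
  apply LinearEquiv.ext
  intro v
  show g v = v
  refine Lm_ind C (P := fun v => g v = v) ?_ ?_ ?_ hH v
  · intro x y hx hy
    rw [map_add, hx, hy]
  · intro c x hx
    rw [map_smul, hx]
  · intro α hα
    rcases hDIC n C α hα with h | h
    · exact hpos α hα h
    · have := hnegall (-α) (neg_root C hα) h
      rwa [neg_neg] at this

end Pool.Agent.EXC
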